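import Pool.Agent.Lib.MP_658dbf_an_Q.Final

/-!
At natural numbers the infimum is attained and is a multiple of `4π`.
-/

set_option autoImplicit false

namespace Pool.Agent.MP658q

open Pool.Agent.MP658dbf

/-- The sum of the squares of the coefficients, as an integer. -/
noncomputable def nsqZ (F : Polynomial ℤ) : ℤ :=
  ∑ i ∈ Finset.range (F.natDegree + 1), F.coeff i ^ 2

theorem nsq_eq (F : Polynomial ℤ) : nsq F = (nsqZ F : ℝ) := by
  unfold nsq nsqZ
  push_cast
  rfl

theorem nsqZ_even {F : Polynomial ℤ} {k : ℕ} (hk : 1 ≤ k) (hd : (Polynomial.X - 1) ^ k ∣ F) :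
    Even (nsqZ F) := by
  have h1 : F.eval 1 = 0 := by
    obtain ⟨G, hG⟩ := hd
    rw [hG, Polynomial.eval_mul, Polynomial.eval_pow, Polynomial.eval_sub, Polynomial.eval_X,
      Polynomial.eval_one, sub_self, zero_pow (by omega), zero_mul]
  rw [Polynomial.eval_eq_sum_range] at h1
  simp only [one_pow, mul_one] at h1
  have h2 : nsqZ F = ∑ i ∈ Finset.range (F.natDegree + 1), (F.coeff i * (F.coeff i - 1)) := by
    have h3 : ∑ i ∈ Finset.range (F.natDegree + 1), (F.coeff i * (F.coeff i - 1)) =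
        nsqZ F - ∑ i ∈ Finset.range (F.natDegree + 1), F.coeff i := by
      unfold nsqZ
      rw [← Finset.sum_sub_distrib]
      apply Finset.sum_congr rfl
      intro i _
      ring
    rw [h3, h1, sub_zero]
  rw [h2]
  apply Finset.even_sum
  intro i _
  exact Int.even_mul_pred_self _

theorem nat_values (k : ℕ) (hk : 1 ≤ k) :
    ∃ m : ℕ, wInf k = 4 * Real.pi * m ∧
      ∃ P : Polynomial ℤ, P.Monic ∧ wInt k P = 4 * Real.pi * m := by
  classical
  have hex : ∃ n : ℕ, ∃ P : Polynomial ℤ, P.Monic ∧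
      nsqZ ((Polynomial.X - 1) ^ k * P) = (n : ℤ) := by
    refine ⟨(nsqZ ((Polynomial.X - 1) ^ k * 1)).toNat, 1, Polynomial.monic_one, ?_⟩
    rw [Int.toNat_of_nonneg]
    unfold nsqZ
    exact Finset.sum_nonneg fun i _ => sq_nonneg _
  obtain ⟨P, hP, hv⟩ := Nat.find_spec hex
  have hmin := fun n => @Nat.find_min' _ _ hex n
  set v := Nat.find hex
  have hpi := Real.pi_pos
  have h1 : wInf k = 2 * Real.pi * v := by
    apply le_antisymm
    · have h2 := wInf_le (k : ℝ) P hP
      rw [wInt_nat, nsq_eq, hv] at h2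
      exact_mod_cast h2
    · apply wInf_ge
      intro Q hQ
      rw [wInt_nat, nsq_eq]
      apply mul_le_mul_of_nonneg_left _ (by positivity)
      have h3 : 0 ≤ nsqZ ((Polynomial.X - 1) ^ k * Q) := by
        unfold nsqZ
        exact Finset.sum_nonneg fun i _ => sq_nonneg _
      obtain ⟨n, hn⟩ := Int.eq_ofNat_of_zero_le h3
      have h4 := hmin n ⟨Q, hQ, hn⟩
      rw [hn]
      exact_mod_cast h4
  have h5 : Even (v : ℤ) := by
    rw [← hv]
    exact nsqZ_even hk ⟨P, rfl⟩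
  obtain ⟨m, hm⟩ : ∃ m : ℕ, v = m + m := by
    have h6 : Even v := by exact_mod_cast h5
    exact h6
  refine ⟨m, ?_, P, hP, ?_⟩
  · rw [h1, hm]
    push_cast
    ring
  · rw [wInt_nat, nsq_eq, hv, hm]
    push_cast
    ring

theorem eleven : wInf (11 : ℕ) = 44 * Real.pi ∨ wInf (11 : ℕ) = 48 * Real.pi := by
  obtain ⟨m, hm, _⟩ := nat_values 11 (by norm_num)
  have h1 := lower_nat 11 (by norm_num)
  obtain ⟨F, hF, hd, hn⟩ := ideal12
  have h2 := wInf_nat_le 11 hF ((pow_dvd_pow _ (by norm_num)).trans hd)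
  have hpi := Real.pi_pos
  have h3 : wInf (11 : ℕ) ≤ 4 * Real.pi * 12 := by
    refine h2.trans ?_
    have : 2 * Real.pi * nsq F ≤ 2 * Real.pi * (2 * ((12 : ℕ) : ℝ)) :=
      mul_le_mul_of_nonneg_left hn (by positivity)
    refine this.trans (le_of_eq ?_)
    push_cast
    ring
  rw [hm] at h1 h3 ⊢
  have h4 : (11 : ℝ) ≤ m := by
    have := le_of_mul_le_mul_left h1 (by positivity)
    exact_mod_cast this
  have h5 : (m : ℝ) ≤ 12 := le_of_mul_le_mul_left h3 (by positivity)
  have h6 : 11 ≤ m := by exact_mod_cast h4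
  have h7 : m ≤ 12 := by exact_mod_cast h5
  have h8 : m = 11 ∨ m = 12 := by omega
  rcases h8 with h | h
  · left; rw [h]; push_cast; ring
  · right; rw [h]; push_cast; ring

theorem near_eleven {δ : ℝ} (h0 : 0 ≤ δ) (h1 : δ ≤ 1) :
    wInf ((11 : ℕ) + δ) ≤ 48 * Real.pi * a0 δ := by
  obtain ⟨F, hF, hd, hn⟩ := ideal12
  refine (up_of hF ((pow_dvd_pow _ (by norm_num)).trans hd) hn h0 h1).trans (le_of_eq ?_)
  push_cast
  ring

end Pool.Agent.MP658q
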