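import Pool.Agent.Lib.MP_658dbf_an_Q.Ideal

/-!
Upper bounds for the weighted infimum.
-/

set_option autoImplicit false

open MeasureTheory Set Filter Topology

namespace Pool.Agent.MP658q

open Pool.Agent.MP658dbf

/-- The mean of `|1 - z|^(2x)` over the unit circle. -/
noncomputable def a0 (x : ℝ) : ℝ := Real.Gamma (2 * x + 1) / Real.Gamma (x + 1) ^ 2

theorem a0_pos {x : ℝ} (hx : 0 ≤ x) : 0 < a0 x := by
  unfold a0
  have h1 : 0 < Real.Gamma (2 * x + 1) := Real.Gamma_pos_of_pos (by linarith)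
  have h2 : 0 < Real.Gamma (x + 1) := Real.Gamma_pos_of_pos (by linarith)
  positivity

theorem a0_zero : a0 0 = 1 := by
  unfold a0
  simp

theorem a0_succ {x : ℝ} (hx : 0 ≤ x) : a0 (x + 1) = a0 x * (2 * (2 * x + 1) / (x + 1)) := by
  unfold a0
  have h1 : Real.Gamma (2 * (x + 1) + 1) =
      (2 * x + 2) * ((2 * x + 1) * Real.Gamma (2 * x + 1)) := by
    have e1 := Real.Gamma_add_one (s := 2 * x + 2) (by linarith)
    have e2 := Real.Gamma_add_one (s := 2 * x + 1) (by linarith)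
    have e3 : 2 * (x + 1) + 1 = 2 * x + 2 + 1 := by ring
    have e4 : 2 * x + 1 + 1 = 2 * x + 2 := by ring
    rw [e4] at e2
    rw [e3, e1, e2]
  have h2 : Real.Gamma (x + 1 + 1) = (x + 1) * Real.Gamma (x + 1) :=
    Real.Gamma_add_one (by linarith)
  have h3 : 0 < Real.Gamma (x + 1) := Real.Gamma_pos_of_pos (by linarith)
  have h4 : (x + 1) ≠ 0 := by linarith
  rw [h1, h2]
  field_simp

theorem wInf_nat_le (k : ℕ) {F : Polynomial ℤ} (hF : F.Monic)
    (hd : (Polynomial.X - 1) ^ k ∣ F) : wInf k ≤ 2 * Real.pi * nsq F := by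
  obtain ⟨G, hG⟩ := hd
  have hX : (Polynomial.X - 1 : Polynomial ℤ).Monic := by
    have := Polynomial.monic_X_sub_C (1 : ℤ)
    rwa [map_one] at this
  have hGm : G.Monic := (hX.pow k).of_mul_monic_left (by rw [← hG]; exact hF)
  have h1 := wInf_le (k : ℝ) G hGm
  rw [wInt_nat, ← hG] at h1
  exact h1

theorem wInf_small {μ : ℝ} (h0 : 0 ≤ μ) (h1 : μ ≤ 1) : wInf μ ≤ 2 * Real.pi * a0 μ := by
  rcases h0.eq_or_lt with h | h
  · rw [← h, a0_zero]
    have h2 := wInf_nat_le 0 Polynomial.monic_one (by simp)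
    have h3 : nsq 1 = 1 := by simp [nsq]
    rw [h3] at h2
    simpa using h2
  · rw [wInf_zero h h1, wh_zero h]
    rfl

theorem up_of {k : ℕ} {F : Polynomial ℤ} (hF : F.Monic) (hd : (Polynomial.X - 1) ^ k ∣ F)
    {c : ℝ} (hc : nsq F ≤ c) {δ : ℝ} (h0 : 0 ≤ δ) (h1 : δ ≤ 1) :
    wInf (k + δ) ≤ 2 * Real.pi * c * a0 δ := by
  have h2 := wInf_add_le' hF k hd h0
  rw [add_comm] at h2
  have h3 := wInf_small h0 h1
  have h4 := wInf_nonneg δ
  have h5 := nsq_nonneg F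
  have h6 := a0_pos h0
  have hpi := Real.pi_pos
  calc wInf (k + δ) ≤ wInf δ * nsq F := h2
    _ ≤ (2 * Real.pi * a0 δ) * nsq F := mul_le_mul_of_nonneg_right h3 h5
    _ ≤ (2 * Real.pi * a0 δ) * c := mul_le_mul_of_nonneg_left hc (by positivity)
    _ = 2 * Real.pi * c * a0 δ := by ring

theorem up (k : ℕ) (hk : 1 ≤ k) {δ : ℝ} (h0 : 0 ≤ δ) (h1 : δ ≤ 1) :
    wInf (k + δ) ≤ 2 * Real.pi * ((k : ℝ) * (k - 1) + 2) * a0 δ := by
  obtain ⟨F, hF, hd, hn⟩ := exists_sparse k hk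
  exact up_of hF hd hn h0 h1

/-- the mean of `|1 - z|^(2δ)` is at most `1 + δ` -/
theorem wInf_small' {δ : ℝ} (h0 : 0 ≤ δ) (h1 : δ ≤ 1) : wInf δ ≤ 2 * Real.pi * (1 + δ) := by
  refine (wInf_le δ 1 Polynomial.monic_one).trans ?_
  have h2 : ∀ θ : ℝ, ‖1 - zt θ‖ ^ 2 = 2 - 2 * Real.cos θ := by
    intro θ
    have h3 := norm_one_sub_exp θ
    unfold zt
    rw [h3, sq_abs, mul_pow, Real.sin_sq_eq_half_sub]
    have : 2 * (θ / 2) = θ := by ring
    rw [this]
    ring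
  have h3 : wInt δ 1 ≤ ∫ θ in (-Real.pi)..Real.pi, (1 + δ * (1 - 2 * Real.cos θ)) := by
    unfold wInt
    apply intervalIntegral.integral_mono_on (by linarith [Real.pi_pos])
    · have := continuous_gQ 1 h0
      exact this.intervalIntegrable _ _
    · apply Continuous.intervalIntegrable
      fun_prop
    · intro θ _
      simp only [map_one, norm_one, one_pow, mul_one]
      have h4 : ‖1 - Complex.exp (θ * Complex.I)‖ ^ (2 * δ) =
          (1 + (1 - 2 * Real.cos θ)) ^ δ := by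
        have h5 := h2 θ
        unfold zt at h5
        have h6 : (1 + (1 - 2 * Real.cos θ)) = ‖1 - Complex.exp (θ * Complex.I)‖ ^ 2 := by
          rw [h5]; ring
        rw [h6, ← Real.rpow_natCast, ← Real.rpow_mul (norm_nonneg _)]
        norm_num
      rw [h4]
      have h7 := rpow_one_add_le_one_add_mul_self (s := 1 - 2 * Real.cos θ) (p := δ)
        (by linarith [Real.cos_le_one θ]) h0 h1
      exact h7
  refine h3.trans (le_of_eq ?_)
  rw [intervalIntegral.integral_add (by simp)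
    (by apply Continuous.intervalIntegrable; fun_prop), intervalIntegral.integral_const_mul,
    intervalIntegral.integral_sub (by simp)
    (by apply Continuous.intervalIntegrable; fun_prop), intervalIntegral.integral_const_mul,
    integral_cos]
  simp
  ring

theorem up' (k : ℕ) (hk : 1 ≤ k) {δ : ℝ} (h0 : 0 ≤ δ) (h1 : δ ≤ 1) :
    wInf (k + δ) ≤ 2 * Real.pi * ((k : ℝ) * (k - 1) + 2) * (1 + δ) := by
  obtain ⟨F, hF, hd, hn⟩ := exists_sparse k hk
  have h2 := wInf_add_le' hF k hd h0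
  rw [add_comm] at h2
  have h3 := wInf_small' h0 h1
  have h5 := nsq_nonneg F
  have hpi := Real.pi_pos
  calc wInf (k + δ) ≤ wInf δ * nsq F := h2
    _ ≤ (2 * Real.pi * (1 + δ)) * nsq F := mul_le_mul_of_nonneg_right h3 h5
    _ ≤ (2 * Real.pi * (1 + δ)) * ((k : ℝ) * (k - 1) + 2) :=
        mul_le_mul_of_nonneg_left hn (by positivity)
    _ = 2 * Real.pi * ((k : ℝ) * (k - 1) + 2) * (1 + δ) := by ring

theorem growth (l : ℝ) (hl : 1 ≤ l) : wInf l ≤ 4 * Real.pi * (l ^ 2 - l + 2) := by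
  have hk : 1 ≤ ⌊l⌋₊ := Nat.le_floor (by exact_mod_cast hl)
  have h1 : (⌊l⌋₊ : ℝ) ≤ l := Nat.floor_le (by linarith)
  have h2 : l < ⌊l⌋₊ + 1 := Nat.lt_floor_add_one l
  set k := ⌊l⌋₊ with hkdef
  have h3 := up' k hk (δ := l - k) (by linarith) (by linarith)
  have h4 : (k : ℝ) + (l - k) = l := by ring
  rw [h4] at h3
  have hk' : (1 : ℝ) ≤ k := by exact_mod_cast hk
  have hpi := Real.pi_pos
  have h5 : ((k : ℝ) * (k - 1) + 2) * (1 + (l - k)) ≤ 2 * (l ^ 2 - l + 2) := by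
    have h6 : (k : ℝ) * (k - 1) + 2 ≤ l ^ 2 - l + 2 := by nlinarith
    have h7 : 0 ≤ (k : ℝ) * (k - 1) + 2 := by nlinarith
    nlinarith
  calc wInf l ≤ 2 * Real.pi * ((k : ℝ) * (k - 1) + 2) * (1 + (l - k)) := h3
    _ = 2 * Real.pi * (((k : ℝ) * (k - 1) + 2) * (1 + (l - k))) := by ring
    _ ≤ 2 * Real.pi * (2 * (l ^ 2 - l + 2)) := mul_le_mul_of_nonneg_left h5 (by positivity)
    _ = 4 * Real.pi * (l ^ 2 - l + 2) := by ring

/-- growth of the mean -/
theorem a0_add (k : ℕ) {δ : ℝ} (h0 : 0 ≤ δ) : 2 * 3 ^ k * a0 δ ≤ a0 (δ + (k + 1)) := by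
  induction k with
  | zero =>
    simp only [pow_zero, Nat.cast_zero, zero_add, mul_one]
    rw [a0_succ h0]
    have h1 := a0_pos h0
    have h2 : 2 ≤ 2 * (2 * δ + 1) / (δ + 1) := by
      rw [le_div_iff₀ (by linarith)]; linarith
    nlinarith
  | succ k ih =>
    have h1 : δ + ((k + 1 : ℕ) + 1) = (δ + (k + 1)) + 1 := by push_cast; ring
    rw [h1, a0_succ (by positivity)]
    have h2 : 3 ≤ 2 * (2 * (δ + (k + 1)) + 1) / (δ + (k + 1) + 1) := by
      rw [le_div_iff₀ (by positivity)]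
      have : (0 : ℝ) ≤ k := by positivity
      linarith
    have h3 := a0_pos (x := δ + (k + 1)) (by positivity)
    calc 2 * 3 ^ (k + 1) * a0 δ = (2 * 3 ^ k * a0 δ) * 3 := by ring
      _ ≤ a0 (δ + (k + 1)) * 3 := by linarith
      _ ≤ _ := mul_le_mul_of_nonneg_left h2 h3.le

theorem num_lt (k : ℕ) (hk : 1 ≤ k) : ((k + 1 : ℕ) : ℝ) * ((k + 1 : ℕ) - 1) + 2 < 2 * 3 ^ k := by
  induction k, hk using Nat.le_induction with
  | base => norm_num
  | succ k hk ih =>
    have h1 : (1 : ℝ) ≤ k := by exact_mod_cast hk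
    push_cast at ih ⊢
    rw [pow_succ]
    nlinarith

theorem strict (l : ℝ) (hl : 1 < l) : wInf l < 2 * Real.pi * a0 l := by
  have hk : 1 ≤ ⌊l⌋₊ := Nat.le_floor (by exact_mod_cast hl.le)
  have h1 : (⌊l⌋₊ : ℝ) ≤ l := Nat.floor_le (by linarith)
  have h2 : l < ⌊l⌋₊ + 1 := Nat.lt_floor_add_one l
  set k := ⌊l⌋₊ with hkdef
  have hd0 : 0 ≤ l - k := by linarith
  have h3 := up k hk (δ := l - k) hd0 (by linarith)
  have h4 : (k : ℝ) + (l - k) = l := by ring
  rw [h4] at h3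
  refine lt_of_le_of_lt h3 ?_
  have hpi := Real.pi_pos
  have h5 := a0_pos hd0
  have key : ((k : ℝ) * (k - 1) + 2) * a0 (l - k) < a0 l := by
    obtain ⟨j, hj⟩ : ∃ j, k = j + 1 := ⟨k - 1, by omega⟩
    rcases Nat.eq_zero_or_pos j with hj0 | hj0
    · have hk1 : k = 1 := by omega
      have e1 : (k : ℝ) = 1 := by rw [hk1]; norm_num
      rw [e1] at hd0 h5 ⊢
      have e2 : l = (l - 1) + 1 := by ring
      have e3 : a0 l = a0 (l - 1) * (2 * (2 * (l - 1) + 1) / (l - 1 + 1)) := by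
        rw [← a0_succ hd0, ← e2]
      rw [e3]
      have h6 : 2 < 2 * (2 * (l - 1) + 1) / (l - 1 + 1) := by
        rw [lt_div_iff₀ (by linarith)]; linarith
      nlinarith
    · have h6 := num_lt j hj0
      have h7 := a0_add j hd0
      have e1 : l - (k : ℝ) + (j + 1) = l := by rw [hj]; push_cast; ring
      rw [e1] at h7
      rw [← hj] at h6
      calc ((k : ℝ) * (k - 1) + 2) * a0 (l - k) < 2 * 3 ^ j * a0 (l - k) :=
            mul_lt_mul_of_pos_right h6 h5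
        _ ≤ a0 l := h7
  calc 2 * Real.pi * ((k : ℝ) * (k - 1) + 2) * a0 (l - k)
      = 2 * Real.pi * (((k : ℝ) * (k - 1) + 2) * a0 (l - k)) := by ring
    _ < 2 * Real.pi * a0 l := mul_lt_mul_of_pos_left key (by positivity)

theorem attained_iff (l : ℝ) (hl : 0 < l) : wInf l = 2 * Real.pi * a0 l ↔ l ≤ 1 := by
  constructor
  · intro h
    by_contra hc
    exact (strict l (not_le.mp hc)).ne h
  · intro h
    rw [wInf_zero hl h, wh_zero hl]
    rfl

theorem a0_one : a0 1 = 2 := by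
  have h := a0_succ (x := 0) le_rfl
  rw [a0_zero] at h
  norm_num at h
  exact h

theorem lower_nat (k : ℕ) (hk : 1 ≤ k) : 4 * Real.pi * k ≤ wInf k := by
  have h1 : wh 1 0 = 2 := by
    rw [wh_zero one_pos]
    exact a0_one
  obtain ⟨n, rfl⟩ : ∃ n, k = n + 1 := ⟨k - 1, by omega⟩
  rcases Nat.eq_zero_or_pos n with hn | hn
  · subst hn
    have h2 := wInf_zero (μ := 1) one_pos le_rfl
    rw [h1] at h2
    norm_num
    rw [h2]
    linarith [Real.pi_pos]
  · have h2 := wInf_lower (μ := 1) one_pos le_rfl hn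
    rw [h1] at h2
    push_cast
    refine le_trans (le_of_eq ?_) h2
    ring

theorem exact_nat (k : ℕ) (hk : k ∈ ({1, 2, 3, 4, 5, 6, 7, 8, 9, 10, 12} : Finset ℕ)) :
    wInf k = 4 * Real.pi * k := by
  obtain ⟨F, hF, hd, hn⟩ := ideal_all k hk
  have hk1 : 1 ≤ k := by
    simp only [Finset.mem_insert, Finset.mem_singleton] at hk
    omega
  refine le_antisymm ?_ (lower_nat k hk1)
  refine (wInf_nat_le k hF hd).trans ?_
  have hpi := Real.pi_pos
  calc 2 * Real.pi * nsq F ≤ 2 * Real.pi * (2 * (k : ℝ)) :=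
        mul_le_mul_of_nonneg_left hn (by positivity)
    _ = 4 * Real.pi * k := by ring

theorem near_nat (k : ℕ) (hk : k ∈ ({1, 2, 3, 4, 5, 6, 7, 8, 9, 10, 12} : Finset ℕ)) {δ : ℝ}
    (h0 : 0 ≤ δ) (h1 : δ ≤ 1) : wInf (k + δ) ≤ 4 * Real.pi * k * a0 δ := by
  obtain ⟨F, hF, hd, hn⟩ := ideal_all k hk
  refine (up_of hF hd hn h0 h1).trans (le_of_eq ?_)
  ring

end Pool.Agent.MP658q
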