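import Pool.Agent.Lib.MP_658dbf_an_Q.Pigeon

/-!
Ideal Prouhet-Tarry-Escott solutions of sizes 1, ..., 10 and 12.
-/

set_option autoImplicit false

namespace Pool.Agent.MP658q

theorem dp_dvd' (A B : Finset ℕ) (k : ℕ)
    (h : ∀ d < k, ∑ a ∈ A, a.descFactorial d = ∑ b ∈ B, b.descFactorial d) :
    (Polynomial.X - 1 : Polynomial ℤ) ^ k ∣ dp A B := by
  apply dp_dvd
  intro d hd
  have h1 := h d hd
  simp only [Nat.descFactorial_eq_factorial_mul_choose] at h1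
  rw [← Finset.mul_sum, ← Finset.mul_sum] at h1
  exact Nat.eq_of_mul_eq_mul_left d.factorial_pos h1

theorem ideal_of (k : ℕ) (A B : Finset ℕ) (hAB : A ≠ B) (hA : A.card = k) (hB : B.card = k)
    (h : ∀ d < k, ∑ a ∈ A, a.descFactorial d = ∑ b ∈ B, b.descFactorial d) :
    ∃ F : Polynomial ℤ, F.Monic ∧ (Polynomial.X - 1) ^ k ∣ F ∧ nsq F ≤ 2 * (k : ℝ) := by
  have hn : (A.card : ℝ) + B.card = 2 * (k : ℝ) := by rw [hA, hB]; ring
  rcases dp_monic hAB with h1 | h1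
  · exact ⟨dp A B, h1, dp_dvd' A B k h, (dp_nsq A B).trans hn.le⟩
  · refine ⟨dp B A, h1, dp_dvd' B A k fun d hd => (h d hd).symm, (dp_nsq B A).trans ?_⟩
    rw [add_comm]
    exact hn.le

theorem ideal1 : ∃ F : Polynomial ℤ, F.Monic ∧ (Polynomial.X - 1) ^ 1 ∣ F ∧
    nsq F ≤ 2 * ((1 : ℕ) : ℝ) :=
  ideal_of 1 {0} {1} (by decide) (by decide) (by decide) (by decide)

theorem ideal2 : ∃ F : Polynomial ℤ, F.Monic ∧ (Polynomial.X - 1) ^ 2 ∣ F ∧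
    nsq F ≤ 2 * ((2 : ℕ) : ℝ) :=
  ideal_of 2 {0, 3} {1, 2} (by decide) (by decide) (by decide) (by decide)

theorem ideal3 : ∃ F : Polynomial ℤ, F.Monic ∧ (Polynomial.X - 1) ^ 3 ∣ F ∧
    nsq F ≤ 2 * ((3 : ℕ) : ℝ) :=
  ideal_of 3 {0, 4, 5} {1, 2, 6} (by decide) (by decide) (by decide) (by decide)

theorem ideal4 : ∃ F : Polynomial ℤ, F.Monic ∧ (Polynomial.X - 1) ^ 4 ∣ F ∧
    nsq F ≤ 2 * ((4 : ℕ) : ℝ) :=
  ideal_of 4 {0, 4, 7, 11} {1, 2, 9, 10} (by decide) (by decide) (by decide) (by decide)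

theorem ideal5 : ∃ F : Polynomial ℤ, F.Monic ∧ (Polynomial.X - 1) ^ 5 ∣ F ∧
    nsq F ≤ 2 * ((5 : ℕ) : ℝ) :=
  ideal_of 5 {0, 4, 8, 16, 17} {1, 2, 10, 14, 18} (by decide) (by decide) (by decide)
    (by decide)

theorem ideal6 : ∃ F : Polynomial ℤ, F.Monic ∧ (Polynomial.X - 1) ^ 6 ∣ F ∧
    nsq F ≤ 2 * ((6 : ℕ) : ℝ) :=
  ideal_of 6 {0, 5, 6, 16, 17, 22} {1, 2, 10, 12, 20, 21} (by decide) (by decide) (by decide)
    (by decide)

theorem ideal7 : ∃ F : Polynomial ℤ, F.Monic ∧ (Polynomial.X - 1) ^ 7 ∣ F ∧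
    nsq F ≤ 2 * ((7 : ℕ) : ℝ) :=
  ideal_of 7 {0, 18, 27, 58, 64, 89, 101} {1, 13, 38, 44, 75, 84, 102}
    (by decide) (by decide) (by decide) (by decide +kernel)

theorem ideal8 : ∃ F : Polynomial ℤ, F.Monic ∧ (Polynomial.X - 1) ^ 8 ∣ F ∧
    nsq F ≤ 2 * ((8 : ℕ) : ℝ) :=
  ideal_of 8 {0, 4, 9, 23, 27, 41, 46, 50} {1, 2, 11, 20, 30, 39, 48, 49}
    (by decide) (by decide) (by decide) (by decide +kernel)

theorem ideal9 : ∃ F : Polynomial ℤ, F.Monic ∧ (Polynomial.X - 1) ^ 9 ∣ F ∧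
    nsq F ≤ 2 * ((9 : ℕ) : ℝ) :=
  ideal_of 9 {0, 24, 30, 83, 86, 133, 157, 181, 197} {1, 17, 41, 65, 112, 115, 168, 174, 198}
    (by decide) (by decide) (by decide) (by decide +kernel)

theorem ideal10 : ∃ F : Polynomial ℤ, F.Monic ∧ (Polynomial.X - 1) ^ 10 ∣ F ∧
    nsq F ≤ 2 * ((10 : ℕ) : ℝ) :=
  ideal_of 10 {0, 12, 125, 213, 214, 412, 413, 501, 614, 626}
    {5, 6, 133, 182, 242, 384, 444, 493, 620, 621}
    (by decide) (by decide) (by decide) (by decide +kernel)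

theorem ideal12 : ∃ F : Polynomial ℤ, F.Monic ∧ (Polynomial.X - 1) ^ 12 ∣ F ∧
    nsq F ≤ 2 * ((12 : ℕ) : ℝ) :=
  ideal_of 12 {0, 11, 24, 65, 90, 129, 173, 212, 237, 278, 291, 302}
    {3, 5, 30, 57, 104, 116, 186, 198, 245, 272, 297, 299}
    (by decide) (by decide) (by decide) (by decide +kernel)

theorem ideal_all (k : ℕ) (hk : k ∈ ({1, 2, 3, 4, 5, 6, 7, 8, 9, 10, 12} : Finset ℕ)) :
    ∃ F : Polynomial ℤ, F.Monic ∧ (Polynomial.X - 1) ^ k ∣ F ∧ nsq F ≤ 2 * (k : ℝ) := by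
  simp only [Finset.mem_insert, Finset.mem_singleton] at hk
  rcases hk with h | h | h | h | h | h | h | h | h | h | h <;> subst h
  · exact ideal1
  · exact ideal2
  · exact ideal3
  · exact ideal4
  · exact ideal5
  · exact ideal6
  · exact ideal7
  · exact ideal8
  · exact ideal9
  · exact ideal10
  · exact ideal12

end Pool.Agent.MP658q
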