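import Pool.Agent.Lib.MP_658dbf_an_Q.Sub

/-!
Sparse multiples of `(X - 1)^k` from the pigeonhole principle.
-/

set_option autoImplicit false

namespace Pool.Agent.MP658q

/-- difference of two sets of exponents -/
noncomputable def dp (A B : Finset ℕ) : Polynomial ℤ :=
  ∑ a ∈ A, Polynomial.X ^ a - ∑ b ∈ B, Polynomial.X ^ b

theorem dp_coeff (A B : Finset ℕ) (i : ℕ) :
    (dp A B).coeff i = (if i ∈ A then 1 else 0) - (if i ∈ B then 1 else 0) := by
  unfold dp
  rw [Polynomial.coeff_sub, Polynomial.finsetSum_coeff, Polynomial.finsetSum_coeff]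
  simp [Polynomial.coeff_X_pow]

theorem dp_dvd (A B : Finset ℕ) (k : ℕ)
    (h : ∀ d < k, ∑ a ∈ A, a.choose d = ∑ b ∈ B, b.choose d) :
    (Polynomial.X - 1 : Polynomial ℤ) ^ k ∣ dp A B := by
  have h1 : (Polynomial.X - 1 : Polynomial ℤ) = Polynomial.X - Polynomial.C 1 := by simp
  rw [h1, Polynomial.X_sub_C_pow_dvd_iff, Polynomial.X_pow_dvd_iff]
  intro d hd
  unfold dp
  rw [Polynomial.sub_comp, Polynomial.sum_comp, Polynomial.sum_comp, Polynomial.coeff_sub,
    Polynomial.finsetSum_coeff, Polynomial.finsetSum_coeff]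
  simp only [Polynomial.X_pow_comp, Polynomial.coeff_X_add_C_pow, one_pow, one_mul]
  have h2 := h d hd
  have h3 : ((∑ a ∈ A, a.choose d : ℕ) : ℤ) = ((∑ b ∈ B, b.choose d : ℕ) : ℤ) := by rw [h2]
  push_cast at h3
  rw [h3, sub_self]

theorem dp_nsq (A B : Finset ℕ) : nsq (dp A B) ≤ A.card + B.card := by
  unfold nsq
  have h1 : ∀ i ∈ Finset.range ((dp A B).natDegree + 1), (((dp A B).coeff i : ℤ) : ℝ) ^ 2 ≤
      (if i ∈ A then (1 : ℝ) else 0) + (if i ∈ B then (1 : ℝ) else 0) := by
    intro i _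
    rw [dp_coeff]
    by_cases hA : i ∈ A <;> by_cases hB : i ∈ B <;> simp [hA, hB]
  refine (Finset.sum_le_sum h1).trans ?_
  rw [Finset.sum_add_distrib]
  have h2 : ∀ S : Finset ℕ, ∑ i ∈ Finset.range ((dp A B).natDegree + 1),
      (if i ∈ S then (1 : ℝ) else 0) ≤ S.card := by
    intro S
    rw [← Finset.sum_filter, Finset.sum_const, nsmul_eq_mul, mul_one]
    have : (Finset.filter (fun i => i ∈ S) (Finset.range ((dp A B).natDegree + 1))).card ≤
        S.card := by
      apply Finset.card_le_card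
      intro i hi
      exact (Finset.mem_filter.mp hi).2
    exact_mod_cast this
  exact add_le_add (h2 A) (h2 B)

theorem dp_ne_zero {A B : Finset ℕ} (h : A ≠ B) : dp A B ≠ 0 := by
  intro h0
  apply h
  ext i
  have h1 := dp_coeff A B i
  rw [h0, Polynomial.coeff_zero] at h1
  by_cases hA : i ∈ A <;> by_cases hB : i ∈ B <;> simp [hA, hB] at h1 ⊢

theorem dp_swap (A B : Finset ℕ) : dp B A = -dp A B := by
  unfold dp
  ring

theorem dp_monic {A B : Finset ℕ} (h : A ≠ B) : (dp A B).Monic ∨ (dp B A).Monic := by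
  have h1 := dp_coeff A B (dp A B).natDegree
  have h2 : (dp A B).leadingCoeff ≠ 0 := Polynomial.leadingCoeff_ne_zero.mpr (dp_ne_zero h)
  have h3 : (dp A B).coeff (dp A B).natDegree = (dp A B).leadingCoeff := rfl
  rw [h3] at h1
  by_cases hA : (dp A B).natDegree ∈ A <;> by_cases hB : (dp A B).natDegree ∈ B <;>
    simp only [hA, hB, if_true, if_false] at h1
  · exact absurd (by rw [h1]; norm_num) h2
  · left
    unfold Polynomial.Monic
    rw [h1]; norm_num
  · right
    unfold Polynomial.Monic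
    rw [dp_swap, Polynomial.leadingCoeff_neg, h1]
    norm_num
  · exact absurd (by rw [h1]; norm_num) h2

theorem exists_pair (k : ℕ) (hk : 1 ≤ k) : ∃ A B : Finset ℕ, A ≠ B ∧
    A.card = k * (k - 1) / 2 + 1 ∧ B.card = k * (k - 1) / 2 + 1 ∧
    ∀ d < k, ∑ a ∈ A, a.choose d = ∑ b ∈ B, b.choose d := by
  classical
  obtain ⟨r, rfl⟩ : ∃ r, k = r + 1 := ⟨k - 1, by omega⟩
  simp only [Nat.add_sub_cancel]
  set t := (r + 1) * r / 2 with ht
  set s := t + 1 with hs
  set M := 2 ^ s * s.factorial * (s + 1) ^ r + 2 * s + 1 with hM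
  set S := (Finset.range M).powersetCard s with hS
  set T := Fintype.piFinset (fun j : Fin r => Finset.range (s * M ^ (j.val + 1) + 1)) with hT
  have hMpos : 0 < M := by omega
  have hcardT : T.card ≤ (s + 1) ^ r * M ^ t := by
    rw [hT, Fintype.card_piFinset]
    simp only [Finset.card_range]
    have h1 : ∀ j : Fin r, s * M ^ (j.val + 1) + 1 ≤ (s + 1) * M ^ (j.val + 1) := by
      intro j
      have : 1 ≤ M ^ (j.val + 1) := Nat.one_le_pow _ _ hMpos
      nlinarith
    refine (Finset.prod_le_prod' fun j _ => h1 j).trans ?_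
    rw [Finset.prod_mul_distrib, Finset.prod_const, Finset.card_univ, Fintype.card_fin,
      Finset.prod_pow_eq_pow_sum]
    apply Nat.mul_le_mul_left
    apply Nat.pow_le_pow_right hMpos
    have h2 : ∑ j : Fin r, (j.val + 1) = (r + 1) * r / 2 := by
      rw [Fin.sum_univ_eq_sum_range (fun i => i + 1) r]
      have h3 := Finset.sum_range_succ' (fun i => i) r
      simp only [add_zero] at h3
      rw [← h3, Finset.sum_range_id]
      simp
    rw [h2]
  have hcardS : (s + 1) ^ r * M ^ t < S.card := by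
    rw [hS, Finset.card_powersetCard, Finset.card_range]
    have h1 : (M + 1 - s) ^ s ≤ M.descFactorial s := Nat.pow_sub_le_descFactorial M s
    rw [Nat.descFactorial_eq_factorial_mul_choose] at h1
    have h2 : M ≤ 2 * (M + 1 - s) := by omega
    have h3 : M ^ s ≤ 2 ^ s * (M + 1 - s) ^ s := by
      rw [← mul_pow]
      exact Nat.pow_le_pow_left h2 s
    have h4 : 2 ^ s * s.factorial * (s + 1) ^ r < M := by omega
    have h5 : (2 ^ s * s.factorial) * ((s + 1) ^ r * M ^ t) < M ^ s := by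
      have : M ^ s = M * M ^ t := by rw [hs, pow_succ]; ring
      rw [this]
      have h6 : 0 < M ^ t := Nat.pos_of_ne_zero (by positivity)
      calc (2 ^ s * s.factorial) * ((s + 1) ^ r * M ^ t)
          = (2 ^ s * s.factorial * (s + 1) ^ r) * M ^ t := by ring
        _ < M * M ^ t := Nat.mul_lt_mul_of_pos_right h4 h6
    have h7 : (2 ^ s * s.factorial) * ((s + 1) ^ r * M ^ t) <
        (2 ^ s * s.factorial) * M.choose s := by
      calc _ < M ^ s := h5
        _ ≤ 2 ^ s * (M + 1 - s) ^ s := h3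
        _ ≤ 2 ^ s * (s.factorial * M.choose s) := Nat.mul_le_mul_left _ h1
        _ = _ := by ring
    exact lt_of_mul_lt_mul_left h7 (Nat.zero_le _)
  obtain ⟨A, hA, B, hB, hAB, heq⟩ := Finset.exists_ne_map_eq_of_card_lt_of_maps_to
    (lt_of_le_of_lt hcardT hcardS)
    (f := fun A : Finset ℕ => fun j : Fin r => ∑ a ∈ A, a.choose (j.val + 1)) (by
      intro A hA
      rw [hS, Finset.mem_coe, Finset.mem_powersetCard] at hA
      rw [hT, Finset.mem_coe, Fintype.mem_piFinset]
      intro j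
      rw [Finset.mem_range, Nat.lt_succ_iff]
      have h1 : ∀ a ∈ A, a.choose (j.val + 1) ≤ M ^ (j.val + 1) := by
        intro a ha
        have h2 := Finset.mem_range.mp (hA.1 ha)
        exact (Nat.choose_le_pow a (j.val + 1)).trans (Nat.pow_le_pow_left h2.le _)
      have h3 := Finset.sum_le_card_nsmul A _ _ h1
      rw [hA.2, smul_eq_mul] at h3
      exact h3)
  rw [hS, Finset.mem_powersetCard] at hA hB
  refine ⟨A, B, hAB, hA.2, hB.2, ?_⟩
  intro d hd
  rcases Nat.eq_zero_or_pos d with h0 | h0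
  · subst h0
    simp [hA.2, hB.2]
  · have h1 := congrFun heq ⟨d - 1, by omega⟩
    simp only at h1
    have h2 : d - 1 + 1 = d := by omega
    rw [h2] at h1
    exact h1

theorem exists_sparse (k : ℕ) (hk : 1 ≤ k) : ∃ F : Polynomial ℤ, F.Monic ∧
    (Polynomial.X - 1) ^ k ∣ F ∧ nsq F ≤ (k : ℝ) * (k - 1) + 2 := by
  obtain ⟨A, B, hAB, hA, hB, h⟩ := exists_pair k hk
  have hn : (A.card : ℝ) + B.card = (k : ℝ) * (k - 1) + 2 := by
    have h1 : A.card + B.card = k * (k - 1) + 2 := by
      rw [hA, hB]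
      have h2 : Even (k * (k - 1)) := by
        rcases Nat.even_or_odd k with h3 | h3
        · exact h3.mul_right _
        · exact (Nat.Odd.sub_odd h3 odd_one).mul_left _
      obtain ⟨m, hm⟩ := h2
      omega
    have h4 : ((A.card + B.card : ℕ) : ℝ) = ((k * (k - 1) + 2 : ℕ) : ℝ) := by rw [h1]
    push_cast [Nat.cast_sub hk] at h4
    exact h4
  rcases dp_monic hAB with h1 | h1
  · exact ⟨dp A B, h1, dp_dvd A B k h, (dp_nsq A B).trans hn.le⟩
  · refine ⟨dp B A, h1, dp_dvd B A k fun d hd => (h d hd).symm, (dp_nsq B A).trans ?_⟩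
    rw [add_comm]
    exact hn.le

end Pool.Agent.MP658q
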