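import Pool.Agent.Lib.MP_658dbf_an.Final

/-!
Spreading the exponents of a multiple of `(X - 1)^k`: the weighted integral tends to a product.
-/

set_option autoImplicit false

open MeasureTheory Set Filter Topology

namespace Pool.Agent.MP658q

open Pool.Agent.MP658dbf

/-- Riemann-Lebesgue for cosines. -/
theorem rl (g : ℝ → ℝ) (d : ℕ) (hd : d ≠ 0) (hg : Continuous g) :
    Tendsto (fun T : ℕ => ∫ θ in (-Real.pi)..Real.pi, g θ * Real.cos ((d * T : ℕ) * θ))
      atTop (𝓝 0) := by
  set f : ℝ → ℂ := indicator (Ioc (-Real.pi) Real.pi) (fun θ => (g θ : ℂ)) with hf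
  have h1 := Real.tendsto_integral_exp_smul_cocompact f
  have hpi := Real.pi_pos
  have h2 : Tendsto (fun T : ℕ => (-((d * T : ℕ) : ℝ) / (2 * Real.pi))) atTop (cocompact ℝ) := by
    have h3 : Tendsto (fun T : ℕ => (-((d * T : ℕ) : ℝ) / (2 * Real.pi))) atTop atBot := by
      apply Tendsto.atBot_div_const (by positivity)
      apply tendsto_neg_atTop_atBot.comp
      apply tendsto_natCast_atTop_atTop.comp
      exact tendsto_id.const_mul_atTop' (Nat.pos_of_ne_zero hd)
    exact h3.mono_right atBot_le_cocompact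
  have h3 := (Complex.continuous_re.tendsto 0).comp (h1.comp h2)
  rw [Complex.zero_re] at h3
  refine h3.congr ?_
  intro T
  simp only [Function.comp]
  have h4 : ∀ v : ℝ, Real.fourierChar (-(v * (-((d * T : ℕ) : ℝ) / (2 * Real.pi)))) • f v =
      indicator (Ioc (-Real.pi) Real.pi)
        (fun v => Complex.exp (((((d * T : ℕ) : ℝ) * v : ℝ) : ℂ) * Complex.I) * (g v : ℂ)) v := by
    intro v
    rw [hf, Circle.smul_def, Real.fourierChar_apply]
    by_cases hv : v ∈ Ioc (-Real.pi) Real.pi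
    · rw [indicator_of_mem hv, indicator_of_mem hv, smul_eq_mul]
      congr 2
      congr 1
      have : 2 * Real.pi * -(v * (-((d * T : ℕ) : ℝ) / (2 * Real.pi))) = ((d * T : ℕ) : ℝ) * v := by
        field_simp
      rw [this]
    · rw [indicator_of_notMem hv, indicator_of_notMem hv, smul_zero]
  simp_rw [h4]
  rw [integral_indicator measurableSet_Ioc, ← intervalIntegral.integral_of_le (by linarith)]
  have hi : IntervalIntegrable (fun v : ℝ =>
      Complex.exp (((((d * T : ℕ) : ℝ) * v : ℝ) : ℂ) * Complex.I) * (g v : ℂ)) volume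
      (-Real.pi) Real.pi := by
    apply Continuous.intervalIntegrable
    fun_prop
  have h5 := Complex.reCLM.intervalIntegral_comp_comm hi
  have h6 : (∫ v in (-Real.pi)..Real.pi,
      Complex.exp (((((d * T : ℕ) : ℝ) * v : ℝ) : ℂ) * Complex.I) * (g v : ℂ)).re =
      Complex.reCLM (∫ v in (-Real.pi)..Real.pi,
      Complex.exp (((((d * T : ℕ) : ℝ) * v : ℝ) : ℂ) * Complex.I) * (g v : ℂ)) := rfl
  rw [h6, ← h5]
  apply intervalIntegral.integral_congr
  intro v hv
  simp only [Complex.reCLM_apply]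
  rw [mul_comm, Complex.re_ofReal_mul, Complex.exp_ofReal_mul_I_re]

/-- The sum of the squares of the coefficients. -/
noncomputable def nsq (F : Polynomial ℤ) : ℝ :=
  ∑ i ∈ Finset.range (F.natDegree + 1), (F.coeff i : ℝ) ^ 2

theorem normsq (F : Polynomial ℤ) (φ : ℝ) :
    ‖Polynomial.aeval (zt φ) F‖ ^ 2 =
      ∑ i ∈ Finset.range (F.natDegree + 1), ∑ j ∈ Finset.range (F.natDegree + 1),
        ((F.coeff i : ℝ) * F.coeff j) * Real.cos ((Int.natAbs ((i : ℤ) - j) : ℕ) * φ) := by
  have h0 : Polynomial.aeval (zt φ) F =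
      ∑ i ∈ Finset.range (F.natDegree + 1), (F.coeff i : ℂ) * zt φ ^ i := by
    rw [Polynomial.aeval_eq_sum_range]
    apply Finset.sum_congr rfl
    intro i _
    simp
  rw [h0]
  have h3 : ((‖∑ i ∈ Finset.range (F.natDegree + 1), (F.coeff i : ℂ) * zt φ ^ i‖ ^ 2 : ℝ) : ℂ) =
      ∑ i ∈ Finset.range (F.natDegree + 1), ∑ j ∈ Finset.range (F.natDegree + 1),
        ((F.coeff i : ℂ) * zt φ ^ i) * (starRingEnd ℂ) ((F.coeff j : ℂ) * zt φ ^ j) := by
    rw [← Finset.sum_mul_sum, ← map_sum, Complex.mul_conj, Complex.normSq_eq_norm_sq]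
  have h4 := congrArg Complex.re h3
  rw [Complex.ofReal_re, Complex.re_sum] at h4
  rw [h4]
  apply Finset.sum_congr rfl
  intro i hi
  rw [Complex.re_sum]
  apply Finset.sum_congr rfl
  intro j hj
  have h5 : ((F.coeff i : ℂ) * zt φ ^ i) * (starRingEnd ℂ) ((F.coeff j : ℂ) * zt φ ^ j) =
      (((F.coeff i : ℝ) * F.coeff j : ℝ) : ℂ) *
        Complex.exp (((((i : ℤ) - j : ℤ) : ℝ) * φ : ℝ) * Complex.I) := by
    unfold zt
    rw [map_mul, map_pow, ← Complex.exp_conj, map_mul, Complex.conj_ofReal, Complex.conj_I,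
      ← Complex.exp_nat_mul, ← Complex.exp_nat_mul]
    have h6 : (starRingEnd ℂ) (F.coeff j : ℂ) = (F.coeff j : ℂ) := by simp
    rw [h6]
    have h7 : Complex.exp (((((i : ℤ) - j : ℤ) : ℝ) * φ : ℝ) * Complex.I) =
        Complex.exp ((i : ℂ) * (φ * Complex.I)) * Complex.exp ((j : ℂ) * (φ * -Complex.I)) := by
      rw [← Complex.exp_add]; congr 1; push_cast; ring
    rw [h7]
    push_cast
    ring
  rw [h5, Complex.re_ofReal_mul, Complex.exp_ofReal_mul_I_re]
  congr 1
  rw [Nat.cast_natAbs, Int.cast_abs]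
  rcases abs_choice ((((i : ℤ) - j : ℤ)) : ℝ) with h | h
  · rw [h]
  · rw [h, neg_mul, Real.cos_neg]

theorem zt_pow (θ : ℝ) (T : ℕ) : zt θ ^ T = zt (T * θ) := by
  unfold zt
  rw [← Complex.exp_nat_mul]
  congr 1
  push_cast
  ring

theorem diag_sum (F : Polynomial ℤ) (c : ℝ) :
    ∑ i ∈ Finset.range (F.natDegree + 1), ∑ j ∈ Finset.range (F.natDegree + 1),
      (if i = j then ((F.coeff i : ℝ) * F.coeff j) * c else 0) = c * nsq F := by
  unfold nsq
  rw [Finset.mul_sum]
  apply Finset.sum_congr rfl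
  intro i hi
  rw [Finset.sum_ite_eq]
  rw [if_pos hi]
  ring

theorem integral_expand (g : ℝ → ℝ) (hg : Continuous g) (F : Polynomial ℤ) (T : ℕ) :
    ∫ θ in (-Real.pi)..Real.pi, g θ * ‖Polynomial.aeval (zt θ ^ T) F‖ ^ 2 =
      ∑ i ∈ Finset.range (F.natDegree + 1), ∑ j ∈ Finset.range (F.natDegree + 1),
        ((F.coeff i : ℝ) * F.coeff j) * ∫ θ in (-Real.pi)..Real.pi,
          g θ * Real.cos ((Int.natAbs ((i : ℤ) - j) * T : ℕ) * θ) := by
  have h1 : ∀ θ, g θ * ‖Polynomial.aeval (zt θ ^ T) F‖ ^ 2 =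
      ∑ i ∈ Finset.range (F.natDegree + 1), ∑ j ∈ Finset.range (F.natDegree + 1),
        ((F.coeff i : ℝ) * F.coeff j) *
          (g θ * Real.cos ((Int.natAbs ((i : ℤ) - j) * T : ℕ) * θ)) := by
    intro θ
    rw [zt_pow, normsq, Finset.mul_sum]
    apply Finset.sum_congr rfl
    intro i _
    rw [Finset.mul_sum]
    apply Finset.sum_congr rfl
    intro j _
    have : ((Int.natAbs ((i : ℤ) - j) : ℕ) : ℝ) * (T * θ) =
        (Int.natAbs ((i : ℤ) - j) * T : ℕ) * θ := by push_cast; ring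
    rw [this]
    ring
  simp_rw [h1]
  rw [intervalIntegral.integral_finsetSum]
  · apply Finset.sum_congr rfl
    intro i _
    rw [intervalIntegral.integral_finsetSum]
    · apply Finset.sum_congr rfl
      intro j _
      rw [intervalIntegral.integral_const_mul]
    · intro j _
      apply Continuous.intervalIntegrable
      fun_prop
  · intro i _
    apply Continuous.intervalIntegrable
    fun_prop

theorem lim_spread (g : ℝ → ℝ) (hg : Continuous g) (F : Polynomial ℤ) :
    Tendsto (fun T : ℕ => ∫ θ in (-Real.pi)..Real.pi,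
        g θ * ‖Polynomial.aeval (zt θ ^ T) F‖ ^ 2) atTop
      (𝓝 ((∫ θ in (-Real.pi)..Real.pi, g θ) * nsq F)) := by
  simp_rw [integral_expand g hg F]
  rw [← diag_sum]
  apply tendsto_finsetSum
  intro i _
  apply tendsto_finsetSum
  intro j _
  by_cases hij : i = j
  · subst hij
    simp
  · rw [if_neg hij]
    have hd : Int.natAbs ((i : ℤ) - j) ≠ 0 := by
      intro h
      apply hij
      omega
    have h := (rl g _ hd hg).const_mul ((F.coeff i : ℝ) * F.coeff j)
    rwa [mul_zero] at h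

theorem integral_cos_nat (n : ℕ) (hn : n ≠ 0) :
    ∫ θ in (-Real.pi)..Real.pi, Real.cos (n * θ) = 0 := by
  have hn' : (n : ℝ) ≠ 0 := by exact_mod_cast hn
  rw [intervalIntegral.integral_comp_mul_left (fun x => Real.cos x) hn', integral_cos]
  have h1 : Real.sin (n * Real.pi) = 0 := Real.sin_nat_mul_pi n
  have h2 : Real.sin (n * -Real.pi) = 0 := by rw [mul_neg, Real.sin_neg, h1, neg_zero]
  rw [h1, h2]
  simp

theorem integral_normsq (F : Polynomial ℤ) :
    ∫ θ in (-Real.pi)..Real.pi, ‖Polynomial.aeval (zt θ) F‖ ^ 2 = 2 * Real.pi * nsq F := by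
  have h := integral_expand (fun _ => 1) continuous_const F 1
  simp only [pow_one, one_mul, mul_one] at h
  rw [h, ← diag_sum]
  apply Finset.sum_congr rfl
  intro i _
  apply Finset.sum_congr rfl
  intro j _
  by_cases hij : i = j
  · subst hij
    rw [if_pos rfl]
    simp
    left
    ring
  · rw [if_neg hij, integral_cos_nat _ (by omega), mul_zero]

end Pool.Agent.MP658q
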