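import Pool.Agent.Lib.MP_658dbf_an_Q.Spread

/-!
Submultiplicativity of the weighted infimum.
-/

set_option autoImplicit false

open MeasureTheory Set Filter Topology

namespace Pool.Agent.MP658q

open Pool.Agent.MP658dbf

/-- the spread polynomial -/
noncomputable def sp (Q G : Polynomial ℤ) (k T : ℕ) : Polynomial ℤ :=
  Q * (∑ i ∈ Finset.range T, Polynomial.X ^ i) ^ k * Polynomial.expand ℤ T G

theorem sp_monic {Q G : Polynomial ℤ} (hQ : Q.Monic) (hG : G.Monic) (k : ℕ) {T : ℕ}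
    (hT : T ≠ 0) : (sp Q G k T).Monic := by
  unfold sp
  exact (hQ.mul ((Polynomial.monic_geom_sum_X hT).pow k)).mul (hG.expand (Nat.pos_of_ne_zero hT))

theorem sp_norm (Q G : Polynomial ℤ) (k T : ℕ) {μ : ℝ} (hμ : 0 ≤ μ) (θ : ℝ) :
    ‖1 - zt θ‖ ^ (2 * (μ + k)) * ‖Polynomial.aeval (zt θ) (sp Q G k T)‖ ^ 2 =
      (‖1 - zt θ‖ ^ (2 * μ) * ‖Polynomial.aeval (zt θ) Q‖ ^ 2) *
        ‖Polynomial.aeval (zt θ ^ T) ((Polynomial.X - 1) ^ k * G)‖ ^ 2 := by
  have h1 : (2 * (μ + k)) = 2 * μ + 2 * (k : ℝ) := by ring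
  rw [h1, Real.rpow_add_of_nonneg (norm_nonneg _) (by linarith) (by positivity)]
  have h2 : 2 * (k : ℝ) = ((k * 2 : ℕ) : ℝ) := by push_cast; ring
  rw [h2, Real.rpow_natCast, pow_mul]
  have h3 : Polynomial.aeval (zt θ) (sp Q G k T) =
      Polynomial.aeval (zt θ) Q * (∑ i ∈ Finset.range T, zt θ ^ i) ^ k *
        Polynomial.aeval (zt θ ^ T) G := by
    unfold sp
    rw [map_mul, map_mul, map_pow, map_sum, Polynomial.expand_aeval]
    simp
  have h4 : Polynomial.aeval (zt θ ^ T) ((Polynomial.X - 1) ^ k * G) =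
      (zt θ - 1) ^ k * (∑ i ∈ Finset.range T, zt θ ^ i) ^ k * Polynomial.aeval (zt θ ^ T) G := by
    rw [map_mul, map_pow, map_sub, Polynomial.aeval_X, map_one, ← geom_sum_mul,
      mul_pow]
    ring
  rw [h3, h4, norm_mul, norm_mul, norm_mul, norm_mul, norm_pow, norm_pow, norm_sub_rev (zt θ) 1]
  ring

theorem wInt_sp (Q G : Polynomial ℤ) (k T : ℕ) {μ : ℝ} (hμ : 0 ≤ μ) :
    wInt (μ + k) (sp Q G k T) = ∫ θ in (-Real.pi)..Real.pi,
      (‖1 - zt θ‖ ^ (2 * μ) * ‖Polynomial.aeval (zt θ) Q‖ ^ 2) *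
        ‖Polynomial.aeval (zt θ ^ T) ((Polynomial.X - 1) ^ k * G)‖ ^ 2 := by
  unfold wInt
  apply intervalIntegral.integral_congr
  intro θ _
  exact sp_norm Q G k T hμ θ

theorem continuous_gQ (Q : Polynomial ℤ) {μ : ℝ} (hμ : 0 ≤ μ) :
    Continuous (fun θ => ‖1 - zt θ‖ ^ (2 * μ) * ‖Polynomial.aeval (zt θ) Q‖ ^ 2) := by
  have h1 := continuous_zt
  have h2 : Continuous (fun θ => Polynomial.aeval (zt θ) Q) :=
    (Polynomial.continuous_aeval Q).comp h1
  have h3 : Continuous (fun θ => ‖1 - zt θ‖ ^ (2 * μ)) := by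
    apply Continuous.rpow_const (by fun_prop)
    intro θ
    right
    linarith
  fun_prop

theorem nsq_nonneg (F : Polynomial ℤ) : 0 ≤ nsq F := by
  unfold nsq
  exact Finset.sum_nonneg fun i _ => sq_nonneg _

theorem nsq_pos {F : Polynomial ℤ} (hF : F.Monic) : 0 < nsq F := by
  unfold nsq
  apply Finset.sum_pos' (fun i _ => sq_nonneg _)
  refine ⟨F.natDegree, by simp, ?_⟩
  have : F.coeff F.natDegree = 1 := hF
  rw [this]
  norm_num

theorem wInf_add_le {Q G : Polynomial ℤ} (hQ : Q.Monic) (hG : G.Monic) (k : ℕ) {μ : ℝ}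
    (hμ : 0 ≤ μ) : wInf (μ + k) ≤ wInt μ Q * nsq ((Polynomial.X - 1) ^ k * G) := by
  have h1 := lim_spread _ (continuous_gQ Q hμ) ((Polynomial.X - 1) ^ k * G)
  refine ge_of_tendsto h1 ?_
  filter_upwards [eventually_ge_atTop 1] with T hT
  rw [← wInt_sp Q G k T hμ]
  exact wInf_le _ _ (sp_monic hQ hG k (by omega))

theorem wInf_add_le' {F : Polynomial ℤ} (hF : F.Monic) (k : ℕ) (hd : (Polynomial.X - 1) ^ k ∣ F)
    {μ : ℝ} (hμ : 0 ≤ μ) : wInf (μ + k) ≤ wInf μ * nsq F := by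
  obtain ⟨G, hG⟩ := hd
  have hX : (Polynomial.X - 1 : Polynomial ℤ).Monic := by
    have := Polynomial.monic_X_sub_C (1 : ℤ)
    rwa [map_one] at this
  have hGm : G.Monic := (hX.pow k).of_mul_monic_left (by rw [← hG]; exact hF)
  have hpos := nsq_pos hF
  rw [← div_le_iff₀ hpos]
  apply wInf_ge
  intro Q hQ
  rw [div_le_iff₀ hpos, hG]
  exact wInf_add_le hQ hGm k hμ

theorem wInt_nat (k : ℕ) (P : Polynomial ℤ) :
    wInt (k : ℝ) P = 2 * Real.pi * nsq ((Polynomial.X - 1) ^ k * P) := by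
  rw [← integral_normsq]
  unfold wInt
  apply intervalIntegral.integral_congr
  intro θ _
  simp only
  have h2 : 2 * (k : ℝ) = ((k * 2 : ℕ) : ℝ) := by push_cast; ring
  rw [h2, Real.rpow_natCast, pow_mul, map_mul, norm_mul, map_pow, norm_pow, map_sub,
    Polynomial.aeval_X, map_one, norm_sub_rev]
  unfold zt
  ring

theorem wInf_nonneg (l : ℝ) : 0 ≤ wInf l := by
  apply wInf_ge
  intro P _
  unfold wInt
  apply intervalIntegral.integral_nonneg (by linarith [Real.pi_pos])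
  intro θ _
  positivity

theorem wInf_add (k : ℕ) {μ : ℝ} (hμ : 0 ≤ μ) :
    wInf (μ + k) ≤ wInf μ * wInf k / (2 * Real.pi) := by
  have hpi := Real.pi_pos
  have hX : (Polynomial.X - 1 : Polynomial ℤ).Monic := by
    have := Polynomial.monic_X_sub_C (1 : ℤ)
    rwa [map_one] at this
  have h1 : ∀ P : Polynomial ℤ, P.Monic →
      wInf (μ + k) ≤ wInf μ * (wInt k P / (2 * Real.pi)) := by
    intro P hP
    have h2 := wInf_add_le' ((hX.pow k).mul hP) k ⟨P, rfl⟩ hμ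
    rw [wInt_nat]
    have : 2 * Real.pi * nsq ((Polynomial.X - 1) ^ k * P) / (2 * Real.pi) =
        nsq ((Polynomial.X - 1) ^ k * P) := by
      field_simp
    rw [this]
    exact h2
  rcases (wInf_nonneg μ).eq_or_lt with h0 | h0
  · have h2 := h1 1 Polynomial.monic_one
    rw [← h0] at h2 ⊢
    simpa using h2
  · rw [mul_div_assoc]
    have h2 : wInf (μ + k) / wInf μ * (2 * Real.pi) ≤ wInf k := by
      apply wInf_ge
      intro P hP
      have h3 := h1 P hP
      rw [← mul_div_assoc, le_div_iff₀ (by positivity)] at h3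
      rw [div_mul_eq_mul_div, div_le_iff₀ h0]
      linarith
    rw [div_mul_eq_mul_div, div_le_iff₀ h0] at h2
    rw [← mul_div_assoc, le_div_iff₀ (by positivity)]
    linarith

end Pool.Agent.MP658q
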